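import Pool.Agent.R979.SV.Rows

/-!
# Moving the Gram matrix one coordinate at a time
-/

set_option autoImplicit false

namespace Pool.Agent.R979.SV

open MeasureTheory ProbabilityTheory Set Matrix
open scoped ENNReal

variable {ι : Type} [Fintype ι] [DecidableEq ι]

/-- The diagonal matrix with entries `τ` on `S` and `0` elsewhere. -/
def dg (S : Finset ι) (τ : ℝ) : Matrix ι ι ℝ := Matrix.diagonal (fun i => if i ∈ S then τ else 0)

/-- Positive semidefiniteness of the quadratic form. -/
def Psd (N : Matrix ι ι ℝ) : Prop := ∀ v : ι → ℝ, 0 ≤ v ⬝ᵥ (N *ᵥ v)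

/-- The Gram matrix of the rows. -/
def gr (A : ι → ι → ℝ) : Matrix ι ι ℝ := Matrix.of A * (Matrix.of A)ᵀ

open Classical in
/-- The interpolating functional. -/
noncomputable def FS (τ : ℝ) (S : Finset ι) (A : ι → ι → ℝ) : ℝ≥0∞ :=
  if Psd (gr A - dg Sᶜ τ) then
    ENNReal.ofReal (|(Matrix.of A).det| / √((gr A + dg S τ).det)) else 0

omit [DecidableEq ι] in
theorem cont_gr : Continuous (gr : (ι → ι → ℝ) → Matrix ι ι ℝ) := by
  unfold gr
  have h : Continuous fun A : ι → ι → ℝ => Matrix.of A := continuous_id
  exact h.matrix_mul h.matrix_transpose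

theorem closed_psd (D : Matrix ι ι ℝ) : IsClosed {A : ι → ι → ℝ | Psd (gr A - D)} := by
  unfold Psd
  rw [Set.ofPred_forall]
  apply isClosed_iInter
  intro v
  apply isClosed_le continuous_const
  have h1 : Continuous fun A : ι → ι → ℝ => gr A - D := cont_gr.sub continuous_const
  exact continuous_const.dotProduct (h1.matrix_mulVec continuous_const)

theorem meas_FS (τ : ℝ) (S : Finset ι) : Measurable (FS τ S : (ι → ι → ℝ) → ℝ≥0∞) := by
  classical
  unfold FS
  apply Measurable.ite (closed_psd _).measurableSet _ measurable_const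
  apply ENNReal.measurable_ofReal.comp
  have h : Continuous fun A : ι → ι → ℝ => Matrix.of A := continuous_id
  apply Measurable.div
  · exact (continuous_abs.comp h.matrix_det).measurable
  · exact (Real.continuous_sqrt.comp ((cont_gr.add continuous_const).matrix_det)).measurable

theorem exists_normal (A : ι → ι → ℝ) (k : ι) :
    ∃ ν : ι → ℝ, ∑ i, ν i ^ 2 = 1 ∧ ∀ j, j ≠ k → ∑ i, A j i * ν i = 0 := by
  have h1 : ((Matrix.of A).updateRow k 0).det = 0 := by
    apply Matrix.det_eq_zero_of_row_eq_zero k
    intro j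
    simp
  obtain ⟨v, hv, hv2⟩ := Matrix.exists_mulVec_eq_zero_iff.mpr h1
  have hpos : 0 < ∑ i, v i ^ 2 := by
    obtain ⟨i, hi⟩ := Function.ne_iff.mp hv
    have hi' : v i ≠ 0 := hi
    apply Finset.sum_pos' (fun i _ => sq_nonneg _)
    exact ⟨i, Finset.mem_univ i, by positivity⟩
  refine ⟨fun i => v i / √(∑ i, v i ^ 2), ?_, ?_⟩
  · simp only [div_pow]
    rw [← Finset.sum_div, Real.sq_sqrt hpos.le, div_self hpos.ne']
  · intro j hj
    have h2 := congrFun hv2 j
    simp only [Matrix.mulVec, dotProduct, Pi.zero_apply] at h2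
    have h3 : ∀ i, (Matrix.of A).updateRow k 0 j i = A j i := by
      intro i
      rw [Matrix.updateRow_ne hj]
      rfl
    simp only [h3] at h2
    have h4 : ∀ i, A j i * (v i / √(∑ i, v i ^ 2)) = (A j i * v i) / √(∑ i, v i ^ 2) := by
      intro i; ring
    simp only [h4]
    rw [← Finset.sum_div, h2, zero_div]

section
variable (A : ι → ι → ℝ) (k : ι) (ν w : ι → ℝ) (hν : ∑ i, ν i ^ 2 = 1)
  (hort : ∀ j, j ≠ k → ∑ i, A j i * ν i = 0) (hw : ∑ i, w i * ν i = 0)

include hν hort hw

theorem gr_update (h : ℝ) : gr (Function.update A k (w + h • ν)) =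
    gr (Function.update A k w) + Matrix.single k k (h ^ 2) := by
  ext a b
  simp only [gr, Matrix.mul_apply, Matrix.transpose_apply, Matrix.of_apply, Matrix.add_apply]
  by_cases ha : a = k
  · subst ha
    by_cases hb : b = a
    · subst hb
      simp only [Function.update_self, Pi.add_apply, Pi.smul_apply, smul_eq_mul,
        Matrix.single_apply_same]
      have : ∀ i, (w i + h * ν i) * (w i + h * ν i) =
          w i * w i + (2 * h) * (w i * ν i) + h ^ 2 * ν i ^ 2 := by intro i; ring
      simp only [this, Finset.sum_add_distrib, ← Finset.mul_sum, hν, hw]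
      ring
    · simp only [Function.update_self, Function.update_of_ne hb, Pi.add_apply, Pi.smul_apply,
        smul_eq_mul]
      rw [Matrix.single_apply_of_ne _ _ _ _ _ (by intro h; exact hb h.2.symm)]
      have : ∀ i, (w i + h * ν i) * A b i = w i * A b i + h * (A b i * ν i) := by intro i; ring
      simp only [this, Finset.sum_add_distrib, ← Finset.mul_sum, hort b hb]
      ring
  · rw [Matrix.single_apply_of_ne _ _ _ _ _ (by intro h; exact ha h.1.symm)]
    by_cases hb : b = k
    · subst hb
      simp only [Function.update_self, Function.update_of_ne ha, Pi.add_apply, Pi.smul_apply,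
        smul_eq_mul]
      have : ∀ i, A a i * (w i + h * ν i) = A a i * w i + h * (A a i * ν i) := by intro i; ring
      simp only [this, Finset.sum_add_distrib, ← Finset.mul_sum, hort a ha]
      ring
    · simp only [Function.update_of_ne ha, Function.update_of_ne hb]
      ring

theorem det_update (h : ℝ) : (Matrix.of (Function.update A k (w + h • ν))).det =
    h * (Matrix.of (Function.update A k ν)).det := by
  have h0 : ∀ v, (Matrix.of (Function.update A k v)) = (Matrix.of A).updateRow k v := by
    intro v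
    rfl
  simp only [h0]
  rw [Matrix.det_updateRow_add, Matrix.det_updateRow_smul]
  have h1 : ((Matrix.of A).updateRow k w).det = 0 := by
    rw [← Matrix.exists_mulVec_eq_zero_iff]
    refine ⟨ν, ?_, ?_⟩
    · rintro rfl
      simp at hν
    · funext j
      simp only [Matrix.mulVec, dotProduct, Pi.zero_apply]
      by_cases hj : j = k
      · subst hj
        simp only [Matrix.updateRow_self]
        exact hw
      · simp only [Matrix.updateRow_ne hj, Matrix.of_apply]
        exact hort j hj
  rw [h1, zero_add]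

theorem FS_even (τ : ℝ) (S : Finset ι) (h : ℝ) :
    FS τ S (Function.update A k (w + (-h) • ν)) = FS τ S (Function.update A k (w + h • ν)) := by
  have h1 : gr (Function.update A k (w + (-h) • ν)) = gr (Function.update A k (w + h • ν)) := by
    rw [gr_update A k ν w hν hort hw, gr_update A k ν w hν hort hw, neg_sq]
  have h2 : |(Matrix.of (Function.update A k (w + (-h) • ν))).det| =
      |(Matrix.of (Function.update A k (w + h • ν))).det| := by
    rw [det_update A k ν w hν hort hw, det_update A k ν w hν hort hw, neg_mul, abs_neg]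
  unfold FS
  rw [h1, h2]

omit [Fintype ι] hν hort hw in
theorem dg_insert (τ : ℝ) (S : Finset ι) (hk : k ∉ S) :
    dg (insert k S) τ = dg S τ + Matrix.single k k τ := by
  ext a b
  simp only [dg, Matrix.add_apply]
  by_cases hab : a = b
  · subst hab
    simp only [Matrix.diagonal_apply_eq, Finset.mem_insert]
    by_cases ha : a = k
    · subst ha
      simp [hk]
    · rw [Matrix.single_apply_of_ne _ _ _ _ _ (by intro h; exact ha h.1.symm)]
      simp [ha]
  · rw [Matrix.diagonal_apply_ne _ hab, Matrix.diagonal_apply_ne _ hab,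
      Matrix.single_apply_of_ne _ _ _ _ _ (by rintro ⟨h1, h2⟩; exact hab (h1.symm.trans h2))]
    simp

theorem FS_step {τ : ℝ} (hτ : 0 < τ) (S : Finset ι) (hk : k ∉ S) (h : ℝ) :
    FS τ S (Function.update A k (w + (√(h ^ 2 + τ)) • ν)) *
      ENNReal.ofReal (|h| / √(h ^ 2 + τ)) =
    FS τ (insert k S) (Function.update A k (w + h • ν)) := by
  have hpos : 0 < h ^ 2 + τ := by positivity
  have hs : 0 < √(h ^ 2 + τ) := Real.sqrt_pos.mpr hpos
  have e1 : gr (Function.update A k (w + (√(h ^ 2 + τ)) • ν)) - dg Sᶜ τ =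
      gr (Function.update A k (w + h • ν)) - dg (insert k S)ᶜ τ := by
    have e2 : dg Sᶜ τ = dg (insert k S)ᶜ τ + Matrix.single k k τ := by
      rw [← dg_insert k τ (insert k S)ᶜ (by simp)]
      congr 1
      ext i
      simp only [Finset.mem_compl, Finset.mem_insert]
      by_cases hi : i = k
      · subst hi; simp [hk]
      · simp [hi]
    rw [gr_update A k ν w hν hort hw, gr_update A k ν w hν hort hw, e2, Real.sq_sqrt hpos.le,
      Matrix.single_add]
    abel
  have e3 : gr (Function.update A k (w + (√(h ^ 2 + τ)) • ν)) + dg S τ =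
      gr (Function.update A k (w + h • ν)) + dg (insert k S) τ := by
    rw [gr_update A k ν w hν hort hw, gr_update A k ν w hν hort hw, dg_insert k τ S hk,
      Real.sq_sqrt hpos.le, Matrix.single_add]
    abel
  unfold FS
  rw [e1, e3, det_update A k ν w hν hort hw, det_update A k ν w hν hort hw]
  split_ifs
  · rw [← ENNReal.ofReal_mul (by positivity)]
    congr 1
    rw [abs_mul, abs_mul, abs_of_pos hs]
    field_simp
  · rw [zero_mul]

end

theorem update_add (M G : ι → ι → ℝ) (k : ι) (y : ι → ℝ) :
    M + Function.update G k y = Function.update (M + G) k (M k + y) := by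
  funext j
  by_cases hj : j = k
  · subst hj; simp
  · simp [Function.update_of_ne hj]

theorem step {τ : ℝ} (hτ : 0 < τ) (S : Finset ι) (k : ι) (hk : k ∉ S) (M : ι → ι → ℝ) :
    ENNReal.ofReal (Real.exp (-τ / 2)) * ∫⁻ G, FS τ (insert k S) (M + G) ∂(mu2 ι) ≤
      ∫⁻ G, FS τ S (M + G) ∂(mu2 ι) := by
  have hmadd : Measurable fun G : ι → ι → ℝ => M + G := measurable_const_add M
  have hm1 : Measurable fun G : ι → ι → ℝ => FS τ (insert k S) (M + G) := (meas_FS τ _).comp hmadd
  have hm2 : Measurable fun G : ι → ι → ℝ => FS τ S (M + G) := (meas_FS τ _).comp hmadd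
  rw [← lintegral_const_mul _ hm1]
  apply lintegral_le_of_lmarginal_le {k} (hm1.const_mul _) hm2
  rw [lmarginal_singleton, lmarginal_singleton]
  intro G
  simp only
  obtain ⟨ν, hν, hort⟩ := exists_normal (M + G) k
  have hmu : Measurable fun y : ι → ℝ => Function.update G k y := measurable_update G
  apply row_le k ν hν _ _ ((hm1.comp hmu).const_mul _) (hm2.comp hmu)
  intro w hw
  set μ : ℝ := ∑ i, M k i * ν i with hμ
  set w' : ι → ℝ := M k - μ • ν + w with hw'
  have hw'' : ∑ i, w' i * ν i = 0 := by
    have : ∀ i, w' i * ν i = M k i * ν i - μ * ν i ^ 2 + w i * ν i := by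
      intro i
      simp only [hw', Pi.add_apply, Pi.sub_apply, Pi.smul_apply, smul_eq_mul]
      ring
    simp only [this, Finset.sum_add_distrib, Finset.sum_sub_distrib, ← Finset.mul_sum, hν, hw, ← hμ]
    ring
  have hrow : ∀ s : ℝ, M + Function.update G k (w + s • ν) =
      Function.update (M + G) k (w' + (μ + s) • ν) := by
    intro s
    rw [update_add]
    congr 1
    rw [hw', add_smul]
    abel
  simp only [Function.comp_apply, hrow]
  have hmΓ : Measurable fun h : ℝ => FS τ S (Function.update (M + G) k (w' + h • ν)) := by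
    apply (meas_FS τ S).comp
    apply (measurable_update (M + G)).comp
    fun_prop
  have h1 := step_one hτ (fun h => FS τ S (Function.update (M + G) k (w' + h • ν))) hmΓ
    (fun h => FS_even (M + G) k ν w' hν hort hw'' τ S h) μ
  rw [lintegral_congr (fun x => FS_step (M + G) k ν w' hν hort hw'' hτ S hk (μ + x))] at h1
  rw [lintegral_const_mul]
  · exact h1
  · apply (meas_FS τ _).comp
    apply (measurable_update (M + G)).comp
    fun_prop

theorem chain {τ : ℝ} (hτ : 0 < τ) (M : ι → ι → ℝ) (S : Finset ι) :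
    ENNReal.ofReal (Real.exp (-τ / 2)) ^ S.card * ∫⁻ G, FS τ S (M + G) ∂(mu2 ι) ≤
      ∫⁻ G, FS τ ∅ (M + G) ∂(mu2 ι) := by
  induction S using Finset.induction_on with
  | empty => simp
  | insert k S hk ih =>
    rw [Finset.card_insert_of_notMem hk, pow_succ, mul_assoc]
    refine le_trans ?_ ih
    gcongr
    exact step hτ S k hk M

theorem det_gr (A : ι → ι → ℝ) : (gr A).det = (Matrix.of A).det ^ 2 := by
  unfold gr
  rw [Matrix.det_mul, Matrix.det_transpose, sq]

theorem dg_empty (τ : ℝ) : dg (∅ : Finset ι) τ = 0 := by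
  unfold dg
  ext a b
  simp [Matrix.diagonal_apply]

theorem FS_empty_le (τ : ℝ) (A : ι → ι → ℝ) :
    FS τ ∅ A ≤ Set.indicator {A : ι → ι → ℝ | Psd (gr A - dg Finset.univ τ)} 1 A := by
  unfold FS
  rw [Finset.compl_empty]
  by_cases h : Psd (gr A - dg Finset.univ τ)
  · rw [if_pos h, Set.indicator_of_mem (show A ∈ {A : ι → ι → ℝ | Psd (gr A - dg Finset.univ τ)}
      from h), dg_empty, add_zero, det_gr, Real.sqrt_sq_eq_abs]
    simp only [Pi.one_apply]
    rw [← ENNReal.ofReal_one]
    apply ENNReal.ofReal_le_ofReal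
    exact div_self_le_one _
  · rw [if_neg h]
    exact zero_le

theorem psd_gr (A : ι → ι → ℝ) : Psd (gr A) := by
  intro v
  unfold gr
  rw [← Matrix.mulVec_mulVec, Matrix.dotProduct_mulVec, ← Matrix.mulVec_transpose]
  exact Finset.sum_nonneg fun i _ => mul_self_nonneg _

theorem FS_univ (τ : ℝ) (A : ι → ι → ℝ) :
    FS τ Finset.univ A =
      ENNReal.ofReal (|(Matrix.of A).det| / √((gr A + dg Finset.univ τ).det)) := by
  unfold FS
  rw [Finset.compl_univ, dg_empty, sub_zero, if_pos (psd_gr A)]

theorem main_lower {τ : ℝ} (hτ : 0 < τ) (M : ι → ι → ℝ) :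
    ENNReal.ofReal (Real.exp (-τ / 2)) ^ (Fintype.card ι) *
      ∫⁻ G, ENNReal.ofReal (|(Matrix.of (M + G)).det| / √((gr (M + G) + dg Finset.univ τ).det))
        ∂(mu2 ι) ≤
      mu2 ι {G | Psd (gr (M + G) - dg Finset.univ τ)} := by
  have h1 := chain hτ M Finset.univ
  simp only [FS_univ] at h1
  refine h1.trans ?_
  have hs : MeasurableSet {G : ι → ι → ℝ | Psd (gr (M + G) - dg Finset.univ τ)} :=
    (closed_psd _).measurableSet.preimage (measurable_const_add M)
  rw [← lintegral_indicator_one hs]
  apply lintegral_mono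
  intro G
  exact FS_empty_le τ (M + G)

end Pool.Agent.R979.SV
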