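import Pool.Agent.R979.SV.FixZ

/-!
# The tail bound
-/

set_option autoImplicit false

namespace Pool.Agent.R979.SV

open MeasureTheory ProbabilityTheory Set Matrix
open scoped ENNReal

set_option maxHeartbeats 400000

variable {ι : Type} [Fintype ι] [DecidableEq ι]

theorem measQM1 (M : ι → ι → ℝ) :
    Measurable (fun p : (ι → ι → ℝ) × (ι → ℝ) => (M + p.1, p.2)) :=
  (measurable_fst.const_add M).prodMk measurable_snd

theorem measQM (τ ε : ℝ) (M : ι → ι → ℝ) :
    Measurable (fun p : (ι → ι → ℝ) × (ι → ℝ) => QQ τ ε (M + p.1) p.2) := by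
  have h := (meas_QQ τ ε).comp (measQM1 M)
  exact h

theorem swp (F : (ι → ι → ℝ) → (ι → ℝ) → ℝ≥0∞)
    (hF : Measurable fun p : (ι → ι → ℝ) × (ι → ℝ) => F p.1 p.2) :
    ∫⁻ G, ∫⁻ z, F G z ∂(mu1 ι) ∂(mu2 ι) = ∫⁻ z, ∫⁻ G, F G z ∂(mu2 ι) ∂(mu1 ι) :=
  lintegral_lintegral_swap (μ := mu2 ι) (ν := mu1 ι) hF.aemeasurable

theorem rep {τ ε : ℝ} (hτ : 0 < τ) (hε : 0 < ε) (A : ι → ι → ℝ) :
    ENNReal.ofReal (√((gre ε A).det / (gre ε A + τ • (1 : Matrix ι ι ℝ)).det)) =
      ∫⁻ z, QQ τ ε A z ∂(mu1 ι) :=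
  (Zlem (gre_posDef hε A) hτ).symm

theorem eps_bound {τ ε : ℝ} (hτ : 0 < τ) (hε : 0 < ε) (M : ι → ι → ℝ) :
    ENNReal.ofReal (Real.exp (-(√τ * √(Fintype.card ι)))) ≤
      ∫⁻ G, ENNReal.ofReal (√((gre ε (M + G)).det /
        (gre ε (M + G) + τ • (1 : Matrix ι ι ℝ)).det)) ∂(mu2 ι) := by
  rw [lintegral_congr fun G => rep hτ hε (M + G)]
  rw [swp (fun (G : ι → ι → ℝ) (z : ι → ℝ) => QQ τ ε (M + G) z) (measQM τ ε M)]
  refine (avg_z (Real.sqrt_pos.mpr hτ)).trans ?_
  apply lintegral_mono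
  intro z
  exact fixed_z hτ hε M z

theorem ratio_le_one {τ ε : ℝ} (hτ : 0 < τ) (hε : 0 < ε) (A : ι → ι → ℝ) :
    ENNReal.ofReal (√((gre ε A).det / (gre ε A + τ • (1 : Matrix ι ι ℝ)).det)) ≤ 1 := by
  rw [← Zlem (gre_posDef hε A) hτ]
  calc ∫⁻ z, ENNReal.ofReal (Real.exp (-(τ / 2) * (z ⬝ᵥ ((gre ε A)⁻¹ *ᵥ z)))) ∂(mu1 ι)
      ≤ ∫⁻ _, 1 ∂(mu1 ι) := by
        apply lintegral_mono
        intro z
        simp only
        rw [← ENNReal.ofReal_one]
        apply ENNReal.ofReal_le_ofReal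
        apply Real.exp_le_one_iff.mpr
        have h1 := ((gre_posDef hε A).inv.posSemidef).dotProduct_mulVec_nonneg z
        simp only [star_trivial] at h1
        nlinarith
    _ = 1 := by simp

theorem dg_univ (τ : ℝ) : dg (Finset.univ : Finset ι) τ = τ • (1 : Matrix ι ι ℝ) := by
  unfold dg
  ext a b
  simp [Matrix.diagonal_apply, Matrix.one_apply]

theorem zero_bound {τ : ℝ} (hτ : 0 < τ) (M : ι → ι → ℝ) :
    ENNReal.ofReal (Real.exp (-(√τ * √(Fintype.card ι)))) ≤
      ∫⁻ G, ENNReal.ofReal (|(Matrix.of (M + G)).det| /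
        √((gr (M + G) + dg Finset.univ τ).det)) ∂(mu2 ι) := by
  have hlim : Filter.Tendsto (fun m : ℕ => ∫⁻ G, ENNReal.ofReal
      (√((gre (1 / ((m : ℝ) + 1)) (M + G)).det /
        (gre (1 / ((m : ℝ) + 1)) (M + G) + τ • (1 : Matrix ι ι ℝ)).det)) ∂(mu2 ι)) Filter.atTop
      (nhds (∫⁻ G, ENNReal.ofReal (|(Matrix.of (M + G)).det| /
        √((gr (M + G) + dg Finset.univ τ).det)) ∂(mu2 ι))) := by
    apply tendsto_lintegral_of_dominated_convergence (fun _ => 1)
    · intro m
      have hmadd : Measurable fun G : ι → ι → ℝ => M + G := measurable_const_add M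
      have h1 : Continuous fun A : ι → ι → ℝ => gre (1 / ((m : ℝ) + 1)) A := by
        unfold gre
        exact cont_gr.add continuous_const
      have h2 : Measurable fun A : ι → ι → ℝ => ENNReal.ofReal
          (√((gre (1 / ((m : ℝ) + 1)) A).det /
          (gre (1 / ((m : ℝ) + 1)) A + τ • (1 : Matrix ι ι ℝ)).det)) := by
        apply ENNReal.measurable_ofReal.comp
        apply Real.continuous_sqrt.measurable.comp
        exact (h1.matrix_det.measurable).div ((h1.add continuous_const).matrix_det.measurable)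
      exact h2.comp hmadd
    · intro m
      exact Filter.Eventually.of_forall fun G => ratio_le_one hτ (by positivity) _
    · simp
    · apply Filter.Eventually.of_forall
      intro G
      have hcont : Continuous fun e : ℝ => (gre e (M + G)).det := by
        unfold gre
        exact (continuous_const.add (continuous_id.smul continuous_const)).matrix_det
      have hcont2 : Continuous fun e : ℝ => (gre e (M + G) + τ • (1 : Matrix ι ι ℝ)).det := by
        unfold gre
        exact ((continuous_const.add (continuous_id.smul continuous_const)).add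
          continuous_const).matrix_det
      have he0 : gre 0 (M + G) = gr (M + G) := by
        unfold gre; simp
      have hpos : 0 < (gr (M + G) + τ • (1 : Matrix ι ι ℝ)).det :=
        (gre_posDef hτ (M + G)).det_pos
      have htend : Filter.Tendsto (fun m : ℕ => (1 / ((m : ℝ) + 1))) Filter.atTop (nhds 0) :=
        tendsto_one_div_add_atTop_nhds_zero_nat
      have h1 := (hcont.tendsto 0).comp htend
      have h2 := (hcont2.tendsto 0).comp htend
      rw [he0] at h1 h2
      have h3 := (h1.div h2 hpos.ne').sqrt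
      have h4 : √((gr (M + G)).det / (gr (M + G) + τ • (1 : Matrix ι ι ℝ)).det) =
          |(Matrix.of (M + G)).det| / √((gr (M + G) + dg Finset.univ τ).det) := by
        rw [Real.sqrt_div (by rw [det_gr]; positivity), det_gr, Real.sqrt_sq_eq_abs, dg_univ]
      rw [h4] at h3
      exact (ENNReal.continuous_ofReal.tendsto _).comp h3
  refine ge_of_tendsto' hlim fun m => ?_
  exact eps_bound hτ (by positivity) M

/-- The lower bound for the probability that the smallest singular value is at least `t`. -/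
theorem prob_lower {t : ℝ} (ht : 0 < t) (M : ι → ι → ℝ) :
    ENNReal.ofReal (1 - √(Fintype.card ι) * t) ≤
      mu2 ι {G | Psd (gr (M + G) - dg Finset.univ (t ^ 2))} := by
  refine le_trans ?_ (main_lower (by positivity) M)
  refine le_trans ?_ (mul_le_mul_right (zero_bound (by positivity : 0 < t ^ 2) M) _)
  rw [← ENNReal.ofReal_pow (Real.exp_pos _).le, ← ENNReal.ofReal_mul (by positivity),
    Real.sqrt_sq ht.le]
  apply ENNReal.ofReal_le_ofReal
  rw [← Real.exp_nat_mul, ← Real.exp_add]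
  set n : ℝ := ((Fintype.card ι : ℕ) : ℝ) with hn
  have hn0 : 0 ≤ n := by rw [hn]; positivity
  have hsq := Real.sq_sqrt hn0
  set T : ℝ := √n * t with hT
  have hT0 : 0 ≤ T := by positivity
  have e1 : n * (-t ^ 2 / 2) + -(t * √n) = -(T + T ^ 2 / 2) := by
    rw [hT, mul_pow, hsq]; ring
  rw [e1]
  rcases le_or_gt 1 T with h | h
  · have := Real.exp_pos (-(T + T ^ 2 / 2))
    linarith
  · -- `1 - T ≤ exp (-(T + T^2/2))`
    have h1 : 0 < 1 - T := by linarith
    have h2 : Real.log (1 - T) ≤ -(T + T ^ 2 / 2) := by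
      -- the function `log (1 - s) + s + s^2/2` is decreasing on `[0, 1)`
      have hanti : AntitoneOn (fun s : ℝ => Real.log (1 - s) + s + s ^ 2 / 2) (Set.Ico 0 1) := by
        apply antitoneOn_of_deriv_nonpos (convex_Ico 0 1)
        · intro s hs
          have : (1 : ℝ) - s ≠ 0 := by have := hs.2; linarith
          apply ContinuousAt.continuousWithinAt
          fun_prop (disch := exact this)
        · intro s hs
          rw [interior_Ico] at hs
          have : (1 : ℝ) - s ≠ 0 := by have := hs.2; linarith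
          apply DifferentiableAt.differentiableWithinAt
          fun_prop (disch := exact this)
        · intro s hs
          rw [interior_Ico] at hs
          have hs1 : (0 : ℝ) < 1 - s := by have := hs.2; linarith
          have hd : HasDerivAt (fun s : ℝ => Real.log (1 - s) + s + s ^ 2 / 2)
              ((-1) / (1 - s) + 1 + s) s := by
            have h3 : HasDerivAt (fun s : ℝ => 1 - s) (-1) s := by
              simpa using (hasDerivAt_id s).const_sub 1
            have h4 := (h3.log hs1.ne')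
            have h5 : HasDerivAt (fun s : ℝ => s ^ 2 / 2) s s := by
              have := (hasDerivAt_pow 2 s).div_const 2
              simpa using this
            exact (h4.add (hasDerivAt_id s)).add h5
          rw [hd.deriv]
          have : (-1) / (1 - s) + 1 + s = -(s ^ 2) / (1 - s) := by
            field_simp
            ring
          rw [this]
          apply div_nonpos_of_nonpos_of_nonneg _ hs1.le
          nlinarith [sq_nonneg s]
      have := hanti ⟨le_rfl, zero_lt_one⟩ ⟨hT0, h⟩ hT0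
      simp at this
      linarith
    calc 1 - T = Real.exp (Real.log (1 - T)) := (Real.exp_log h1).symm
      _ ≤ _ := Real.exp_le_exp.mpr h2

/-- On the good event the inverse is small. -/
theorem inv_small {t : ℝ} (ht : 0 < t) (A : ι → ι → ℝ)
    (hA : Psd (gr A - dg Finset.univ (t ^ 2))) (v : ι → ℝ) :
    t ^ 2 * ∑ i, ((Matrix.of A)⁻¹ *ᵥ v) i ^ 2 ≤ ∑ i, v i ^ 2 := by
  have hq : ∀ u : ι → ℝ, t ^ 2 * (u ⬝ᵥ u) ≤ ((Matrix.of A)ᵀ *ᵥ u) ⬝ᵥ ((Matrix.of A)ᵀ *ᵥ u) := by
    intro u
    have h1 := hA u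
    rw [Matrix.sub_mulVec, dotProduct_sub, dg_univ, Matrix.smul_mulVec, Matrix.one_mulVec,
      dotProduct_smul, smul_eq_mul] at h1
    have h2 : u ⬝ᵥ (gr A *ᵥ u) = ((Matrix.of A)ᵀ *ᵥ u) ⬝ᵥ ((Matrix.of A)ᵀ *ᵥ u) := by
      unfold gr
      rw [← Matrix.mulVec_mulVec, Matrix.dotProduct_mulVec, ← Matrix.mulVec_transpose]
    rw [h2] at h1
    linarith
  have hdet : (Matrix.of A).det ≠ 0 := by
    intro h0
    rw [← Matrix.det_transpose, ← Matrix.exists_mulVec_eq_zero_iff] at h0
    obtain ⟨u, hu, hu2⟩ := h0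
    have h1 := hq u
    rw [hu2, zero_dotProduct] at h1
    have h3 : 0 < u ⬝ᵥ u := by
      obtain ⟨i, hi⟩ := Function.ne_iff.mp hu
      have hi' : u i ≠ 0 := hi
      exact Finset.sum_pos' (fun i _ => mul_self_nonneg _)
        ⟨i, Finset.mem_univ i, mul_self_pos.mpr hi'⟩
    nlinarith [mul_pos (pow_pos ht 2) h3]
  have hunit : IsUnit (Matrix.of A).det := isUnit_iff_ne_zero.mpr hdet
  set y := (Matrix.of A)⁻¹ *ᵥ v with hy
  set u := ((Matrix.of A)⁻¹)ᵀ *ᵥ y with hu
  have hAu : (Matrix.of A)ᵀ *ᵥ u = y := by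
    rw [hu, Matrix.mulVec_mulVec, ← Matrix.transpose_mul, Matrix.nonsing_inv_mul _ hunit,
      Matrix.transpose_one, Matrix.one_mulVec]
  have h1 := hq u
  rw [hAu] at h1
  have h2 : y ⬝ᵥ y = u ⬝ᵥ v := by
    rw [hu, Matrix.mulVec_transpose, ← Matrix.dotProduct_mulVec]
  have h3 : (u ⬝ᵥ v) ^ 2 ≤ (u ⬝ᵥ u) * (v ⬝ᵥ v) := by
    have := Finset.sum_mul_sq_le_sq_mul_sq Finset.univ u v
    simp only [sq] at this ⊢
    exact this
  have h4 : ∑ i, y i ^ 2 = y ⬝ᵥ y := by
    unfold dotProduct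
    exact Finset.sum_congr rfl fun i _ => by ring
  have h5 : ∑ i, v i ^ 2 = v ⬝ᵥ v := by
    unfold dotProduct
    exact Finset.sum_congr rfl fun i _ => by ring
  rw [h4, h5]
  have h6 : 0 ≤ y ⬝ᵥ y := Finset.sum_nonneg fun i _ => mul_self_nonneg _
  have h7 : 0 ≤ v ⬝ᵥ v := Finset.sum_nonneg fun i _ => mul_self_nonneg _
  rw [← h2] at h3
  rcases h6.eq_or_lt with h8 | h8
  · rw [← h8, mul_zero]; exact h7
  · have h9 : t ^ 2 * (y ⬝ᵥ y) ^ 2 ≤ (y ⬝ᵥ y) * (v ⬝ᵥ v) := by
      calc t ^ 2 * (y ⬝ᵥ y) ^ 2 ≤ t ^ 2 * ((u ⬝ᵥ u) * (v ⬝ᵥ v)) :=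
            mul_le_mul_of_nonneg_left h3 (sq_nonneg t)
        _ = (t ^ 2 * (u ⬝ᵥ u)) * (v ⬝ᵥ v) := by ring
        _ ≤ (y ⬝ᵥ y) * (v ⬝ᵥ v) := mul_le_mul_of_nonneg_right h1 h7
    by_contra h10
    push Not at h10
    nlinarith [mul_pos h8 (sub_pos.mpr h10)]

end Pool.Agent.R979.SV
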