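import Pool.Agent.R979.SV.Z

/-!
# The tail bound
-/

set_option autoImplicit false

namespace Pool.Agent.R979.SV

open MeasureTheory ProbabilityTheory Set Matrix
open scoped ENNReal

variable {ι : Type} [Fintype ι] [DecidableEq ι]

/-- The Gaussian average over `z` for a fixed matrix, as a function of the matrix and `z`. -/
noncomputable def QQ (τ ε : ℝ) (A : ι → ι → ℝ) (z : ι → ℝ) : ℝ≥0∞ :=
  ENNReal.ofReal (Real.exp (-(τ / 2) * (z ⬝ᵥ ((gre ε A)⁻¹ *ᵥ z))))

theorem meas_QQ (τ ε : ℝ) : Measurable fun p : (ι → ι → ℝ) × (ι → ℝ) => QQ τ ε p.1 p.2 := by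
  unfold QQ
  apply ENNReal.measurable_ofReal.comp
  exact Real.measurable_exp.comp (measurable_const.mul meas_q)

theorem comb_complete (b : OrthonormalBasis ι ℝ (EuclideanSpace ℝ ι)) (i i' : ι) :
    ∑ p, b p i * b p i' = if i' = i then 1 else 0 := by
  have h := b.sum_inner_mul_inner (EuclideanSpace.single i (1 : ℝ)) (EuclideanSpace.single i' (1 : ℝ))
  simp only [EuclideanSpace.inner_single_left, EuclideanSpace.inner_single_right] at h
  simpa using h

theorem fixed_z {τ ε : ℝ} (hτ : 0 < τ) (hε : 0 < ε) (M : ι → ι → ℝ) (z : ι → ℝ) :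
    ENNReal.ofReal (Real.exp (-(√τ * √(∑ i, z i ^ 2)))) ≤
      ∫⁻ G, QQ τ ε (M + G) z ∂(mu2 ι) := by
  by_cases hz : z = 0
  · subst hz
    simp [QQ]
  have hr2 : 0 < ∑ i, z i ^ 2 := by
    obtain ⟨i, hi⟩ := Function.ne_iff.mp hz
    have hi' : z i ≠ 0 := hi
    exact Finset.sum_pos' (fun i _ => sq_nonneg _) ⟨i, Finset.mem_univ i, by positivity⟩
  obtain ⟨k, -⟩ := Function.ne_iff.mp hz
  set r : ℝ := √(∑ i, z i ^ 2) with hr
  have hrpos : 0 < r := Real.sqrt_pos.mpr hr2
  have hrsq : r ^ 2 = ∑ i, z i ^ 2 := Real.sq_sqrt hr2.le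
  obtain ⟨b, hb⟩ := exists_basis k (fun i => z i / r) (by
    simp only [div_pow]
    rw [← Finset.sum_div, hrsq, div_self hr2.ne'])
  have hmadd : Measurable fun G : ι → ι → ℝ => M + G := measurable_const_add M
  have hmQ : Measurable fun A : ι → ι → ℝ => QQ τ ε A z :=
    (meas_QQ τ ε).comp (measurable_id.prodMk measurable_const)
  have hmF : Measurable fun G : ι → ι → ℝ => QQ τ ε (M + G) z := hmQ.comp hmadd
  rw [rot2 b _ hmF]
  have hmF2 : Measurable fun X : ι → ι → ℝ =>
      QQ τ ε (M + fun i j => ∑ p, X p j * (b p) i) z := by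
    apply hmF.comp
    apply measurable_pi_lambda
    intro i
    apply measurable_pi_lambda
    intro j
    fun_prop
  have hconst : ENNReal.ofReal (Real.exp (-(√τ * r))) =
      ∫⁻ _ : ι → ι → ℝ, ENNReal.ofReal (Real.exp (-(√τ * r))) ∂(mu2 ι) := by
    simp
  rw [hconst]
  apply lintegral_le_of_lmarginal_le {k} measurable_const hmF2
  rw [lmarginal_singleton, lmarginal_singleton]
  intro X
  simp only
  -- the rotated mean
  set M' : ι → ι → ℝ := fun p j => ∑ i, b p i * M i j with hM'
  obtain ⟨ν, hν, hort⟩ := exists_normal (M' + X) k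
  have hmu : Measurable fun y : ι → ℝ => Function.update X k y := measurable_update X
  apply row_le k ν hν _ _ measurable_const (hmF2.comp hmu)
  intro w hw
  set μ : ℝ := ∑ i, M' k i * ν i with hμ
  have hand := anderson (a := √τ * r) (by positivity) μ
  have hc1 : ∫⁻ _ : ℝ, ENNReal.ofReal (Real.exp (-(√τ * r))) ∂gam =
    ENNReal.ofReal (Real.exp (-(√τ * r))) := by simp
  rw [hc1]
  refine hand.trans ?_
  apply lintegral_mono
  intro s
  simp only [Function.comp_apply]
  unfold QQ
  apply ENNReal.ofReal_le_ofReal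
  set A : ι → ι → ℝ := M + fun i j => ∑ p, Function.update X k (w + s • ν) p j * (b p) i with hAdef
  by_cases h0 : μ + s = 0
  · rw [h0]
    simp only [fc, if_true]
    exact (Real.exp_pos _).le
  · simp only [fc, if_neg h0]
    apply Real.exp_le_exp.mpr
    have hAν : (Matrix.of A) *ᵥ ν = ((μ + s) / r) • z := by
      funext i
      have h1 : ∀ j, A i j = ∑ p, b p i * (M' p j + Function.update X k (w + s • ν) p j) := by
        intro j
        simp only [hAdef, Pi.add_apply, hM', mul_add, Finset.sum_add_distrib]
        congr 1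
        · have h2 : ∀ p, b p i * ∑ i', b p i' * M i' j = ∑ i', (b p i * b p i') * M i' j := by
            intro p
            rw [Finset.mul_sum]
            apply Finset.sum_congr rfl
            intro i' _
            ring
          simp only [h2]
          rw [Finset.sum_comm]
          simp only [← Finset.sum_mul, comb_complete b]
          simp
        · apply Finset.sum_congr rfl
          intro p _
          ring
      simp only [Matrix.mulVec, dotProduct, Matrix.of_apply, h1, Finset.sum_mul]
      rw [Finset.sum_comm]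
      have h3 : ∀ p, ∑ j, b p i * (M' p j + Function.update X k (w + s • ν) p j) * ν j =
          b p i * (if p = k then μ + s else 0) := by
        intro p
        have h4 : ∀ j, b p i * (M' p j + Function.update X k (w + s • ν) p j) * ν j =
            b p i * ((M' p j + Function.update X k (w + s • ν) p j) * ν j) := by
          intro j; ring
        simp only [h4]
        rw [← Finset.mul_sum]
        congr 1
        by_cases hp : p = k
        · subst hp
          simp only [if_true, Function.update_self, Pi.add_apply, Pi.smul_apply, smul_eq_mul]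
          have h5 : ∀ j, (M' p j + (w j + s * ν j)) * ν j =
              M' p j * ν j + w j * ν j + s * ν j ^ 2 := by intro j; ring
          simp only [h5, Finset.sum_add_distrib, ← Finset.mul_sum, hν, hw, ← hμ]
          ring
        · simp only [if_neg hp, Function.update_of_ne hp]
          exact hort p hp
      simp only [h3]
      rw [Finset.sum_eq_single k]
      · simp only [if_true, Pi.smul_apply, smul_eq_mul]
        have := congrFun hb i
        simp only at this
        rw [this]
        ring
      · intro p _ hp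
        simp [hp]
      · intro h
        exact absurd (Finset.mem_univ k) h
    have hcne : (μ + s) / r ≠ 0 := div_ne_zero h0 hrpos.ne'
    have hq := alg_bound hε A z ν hν hcne hAν
    have e1 : -((√τ * r) ^ 2 / 2) / (μ + s) ^ 2 = -(τ / 2) * (1 / ((μ + s) / r) ^ 2) := by
      rw [mul_pow, Real.sq_sqrt hτ.le]
      field_simp
    rw [e1]
    have hneg : -(τ / 2) ≤ 0 := by linarith
    exact mul_le_mul_of_nonpos_left hq hneg

theorem integral_sq : ∫ x : ℝ, x ^ 2 ∂gam = 1 := by
  have h := variance_id_gaussianReal (μ := 0) (v := 1)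
  rw [variance_eq_integral (by fun_prop)] at h
  simp only [id, integral_id_gaussianReal, sub_zero] at h
  simpa using h

theorem integrable_sq : Integrable (fun x : ℝ => x ^ 2) gam := by
  have := (memLp_id_gaussianReal (μ := 0) (v := 1) 2).integrable_sq
  simpa using this

theorem avg_z {t : ℝ} (ht : 0 < t) :
    ENNReal.ofReal (Real.exp (-(t * √(Fintype.card ι)))) ≤
      ∫⁻ z : ι → ℝ, ENNReal.ofReal (Real.exp (-(t * √(∑ i, z i ^ 2)))) ∂(mu1 ι) := by
  rcases isEmpty_or_nonempty ι with hι | hι
  · simp
  set n : ℝ := ((Fintype.card ι : ℕ) : ℝ) with hn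
  have hnpos : 0 < n := by
    rw [hn]; exact_mod_cast Fintype.card_pos
  have hs : 0 < √n := Real.sqrt_pos.mpr hnpos
  have hcont : Continuous fun z : ι → ℝ => Real.exp (-(t * √(∑ i, z i ^ 2))) := by fun_prop
  have hint : Integrable (fun z : ι → ℝ => Real.exp (-(t * √(∑ i, z i ^ 2)))) (mu1 ι) := by
    refine Integrable.of_bound hcont.aestronglyMeasurable 1 (Filter.Eventually.of_forall fun z => ?_)
    rw [Real.norm_eq_abs, abs_of_pos (Real.exp_pos _)]
    apply Real.exp_le_one_iff.mpr
    have := mul_nonneg ht.le (Real.sqrt_nonneg (∑ i, z i ^ 2))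
    linarith
  rw [← ofReal_integral_eq_lintegral_ofReal hint
    (Filter.Eventually.of_forall fun z => (Real.exp_pos _).le)]
  apply ENNReal.ofReal_le_ofReal
  have hisum : Integrable (fun z : ι → ℝ => ∑ i, z i ^ 2) (mu1 ι) := by
    apply integrable_finset_sum
    intro i _
    exact integrable_comp_eval (μ := fun _ : ι => gam) (f := fun x : ℝ => x ^ 2) integrable_sq
  have hsum : ∫ z : ι → ℝ, ∑ i, z i ^ 2 ∂(mu1 ι) = n := by
    rw [integral_finset_sum]
    · have : ∀ i : ι, ∫ z : ι → ℝ, z i ^ 2 ∂(mu1 ι) = 1 := by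
        intro i
        rw [integral_comp_eval (μ := fun _ : ι => gam) (f := fun x : ℝ => x ^ 2)
          integrable_sq.aestronglyMeasurable]
        exact integral_sq
      simp [this, hn]
    · intro i _
      exact integrable_comp_eval (μ := fun _ : ι => gam) (f := fun x : ℝ => x ^ 2) integrable_sq
  have hlow : ∀ z : ι → ℝ, Real.exp (-(t * √n)) * (1 + (t / (2 * √n)) * n -
      (t / (2 * √n)) * ∑ i, z i ^ 2) ≤ Real.exp (-(t * √(∑ i, z i ^ 2))) := by
    intro z
    set S := ∑ i, z i ^ 2 with hS
    have hS0 : 0 ≤ S := Finset.sum_nonneg fun i _ => sq_nonneg _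
    have h1 : √S - √n ≤ (S - n) / (2 * √n) := by
      rw [le_div_iff₀ (by positivity)]
      have h2 := Real.sq_sqrt hS0
      have h3 := Real.sq_sqrt hnpos.le
      nlinarith [sq_nonneg (√S - √n)]
    have h4 : Real.exp (-(t * √S)) = Real.exp (-(t * √n)) * Real.exp (-(t * (√S - √n))) := by
      rw [← Real.exp_add]; congr 1; ring
    rw [h4]
    apply mul_le_mul_of_nonneg_left _ (Real.exp_pos _).le
    have h5 := Real.add_one_le_exp (-(t * (√S - √n)))
    have h6 : t * (√S - √n) ≤ t * ((S - n) / (2 * √n)) := mul_le_mul_of_nonneg_left h1 ht.le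
    have h7 : t * ((S - n) / (2 * √n)) = (t / (2 * √n)) * S - (t / (2 * √n)) * n := by
      field_simp
    linarith
  have hint2 : Integrable (fun z : ι → ℝ => Real.exp (-(t * √n)) * (1 + (t / (2 * √n)) * n -
      (t / (2 * √n)) * ∑ i, z i ^ 2)) (mu1 ι) := by
    apply Integrable.const_mul
    exact (integrable_const _).sub (hisum.const_mul _)
  have := integral_mono hint2 hint hlow
  rw [integral_const_mul, integral_sub (integrable_const _) (hisum.const_mul _),
    integral_const_mul, hsum] at this
  simp only [integral_const, probReal_univ, smul_eq_mul, one_mul] at this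
  linarith

end Pool.Agent.R979.SV
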