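import Mathlib

/-!
# One dimensional Gaussian inequalities
-/

set_option autoImplicit false

namespace Pool.Agent.R979.SV

open MeasureTheory ProbabilityTheory Set
open scoped ENNReal

/-- The standard Gaussian measure on the line. -/
noncomputable abbrev gam : Measure ℝ := gaussianReal 0 1

theorem fold (Θ : ℝ → ℝ≥0∞) (hΘ : Measurable Θ) :
    ∫⁻ h, Θ h = ∫⁻ h in Ioi (0 : ℝ), (Θ h + Θ (-h)) := by
  have h1 : (∫⁻ h in Iic (0 : ℝ), Θ h) + (∫⁻ h in Ioi (0 : ℝ), Θ h) = ∫⁻ h, Θ h := by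
    have := lintegral_add_compl (μ := volume) Θ (measurableSet_Iic (a := (0 : ℝ)))
    rwa [compl_Iic] at this
  have h2 : ∫⁻ h in Ioi (0 : ℝ), Θ (-h) = ∫⁻ h in Iic (0 : ℝ), Θ h := by
    have h3 := (Measure.measurePreserving_neg (volume : Measure ℝ)).setLIntegral_comp_preimage
      (measurableSet_Iic (a := (0 : ℝ))) hΘ
    have h4 : (Neg.neg : ℝ → ℝ) ⁻¹' Iic 0 = Ici 0 := by
      ext x; simp
    rw [h4] at h3
    rw [← h3]
    exact setLIntegral_congr Ioi_ae_eq_Ici
  rw [lintegral_add_left hΘ, h2, ← h1, add_comm]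

/-- The folded Gaussian density. -/
noncomputable def kk (μ h : ℝ) : ℝ :=
  (√(2 * Real.pi))⁻¹ * (2 * Real.exp (-(h ^ 2 + μ ^ 2) / 2) * Real.cosh (μ * h))

theorem kk_nonneg (μ h : ℝ) : 0 ≤ kk μ h := by
  unfold kk
  have := Real.cosh_pos (μ * h)
  positivity

theorem meas_kk (μ : ℝ) : Measurable (kk μ) := by
  unfold kk
  have : Continuous fun h : ℝ => (√(2 * Real.pi))⁻¹ *
      (2 * Real.exp (-(h ^ 2 + μ ^ 2) / 2) * Real.cosh (μ * h)) := by
    have := Real.continuous_cosh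
    fun_prop
  exact this.measurable

theorem shift (Γ : ℝ → ℝ≥0∞) (hΓ : Measurable Γ) (heven : ∀ h, Γ (-h) = Γ h) (μ : ℝ) :
    ∫⁻ x, Γ (μ + x) ∂gam = ∫⁻ h in Ioi (0 : ℝ), ENNReal.ofReal (kk μ h) * Γ h := by
  have h1 : ∫⁻ x, Γ (μ + x) ∂gam = ∫⁻ h, Γ h ∂(gaussianReal μ 1) := by
    have h2 : gaussianReal μ 1 = (gaussianReal 0 1).map (fun x => μ + x) := by
      rw [gaussianReal_map_const_add, zero_add]
    rw [h2, lintegral_map hΓ (by fun_prop)]
  rw [h1, gaussianReal_of_var_ne_zero μ one_ne_zero,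
    lintegral_withDensity_eq_lintegral_mul _ (measurable_gaussianPDF μ 1) hΓ,
    fold _ ((measurable_gaussianPDF μ 1).mul hΓ)]
  apply lintegral_congr
  intro h
  simp only [Pi.mul_apply, heven]
  rw [← add_mul]
  congr 1
  unfold gaussianPDF
  rw [← ENNReal.ofReal_add (gaussianPDFReal_nonneg _ _ _) (gaussianPDFReal_nonneg _ _ _)]
  congr 1
  unfold gaussianPDFReal kk
  simp only [NNReal.coe_one, mul_one]
  rw [← mul_add]
  congr 1
  rw [Real.cosh_eq]
  have e1 : -(h - μ) ^ 2 / 2 = -(h ^ 2 + μ ^ 2) / 2 + μ * h := by ring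
  have e2 : -(-h - μ) ^ 2 / 2 = -(h ^ 2 + μ ^ 2) / 2 + -(μ * h) := by ring
  rw [e1, e2, Real.exp_add, Real.exp_add]
  ring

theorem kk_mass (μ : ℝ) : ∫⁻ h in Ioi (0 : ℝ), ENNReal.ofReal (kk μ h) = 1 := by
  have := shift (fun _ => 1) measurable_const (fun _ => rfl) μ
  simp only [mul_one, lintegral_const, measure_univ] at this
  exact this.symm

theorem image_step {τ : ℝ} (hτ : 0 < τ) :
    (fun u : ℝ => √(u ^ 2 + τ)) '' Ioi 0 = Ioi (√τ) := by
  ext v
  constructor
  · rintro ⟨u, hu, rfl⟩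
    have hu' : (0 : ℝ) < u := hu
    exact Real.sqrt_lt_sqrt hτ.le (by nlinarith)
  · intro hv
    have hv' : √τ < v := hv
    have h0 : 0 ≤ √τ := Real.sqrt_nonneg _
    have h1 : τ < v ^ 2 := by
      have := Real.sq_sqrt hτ.le
      nlinarith
    refine ⟨√(v ^ 2 - τ), Real.sqrt_pos.mpr (by linarith), ?_⟩
    simp only
    rw [Real.sq_sqrt (by linarith), sub_add_cancel, Real.sqrt_sq (by linarith)]

theorem deriv_step {τ : ℝ} (hτ : 0 < τ) (u : ℝ) :
    HasDerivAt (fun u : ℝ => √(u ^ 2 + τ)) (u / √(u ^ 2 + τ)) u := by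
  have h1 : HasDerivAt (fun u : ℝ => u ^ 2 + τ) (2 * u) u := by
    simpa using (hasDerivAt_pow 2 u).add_const τ
  have h2 := h1.sqrt (by positivity)
  convert h2 using 1
  have : 0 < √(u ^ 2 + τ) := Real.sqrt_pos.mpr (by positivity)
  field_simp

theorem kk_step {τ : ℝ} (hτ : 0 < τ) (μ u : ℝ) (hu : 0 < u) :
    Real.exp (-τ / 2) * kk μ u ≤ kk μ (√(u ^ 2 + τ)) := by
  unfold kk
  rw [Real.sq_sqrt (by positivity)]
  have h1 : Real.exp (-(u ^ 2 + τ + μ ^ 2) / 2) =
      Real.exp (-τ / 2) * Real.exp (-(u ^ 2 + μ ^ 2) / 2) := by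
    rw [← Real.exp_add]; congr 1; ring
  rw [h1]
  have h2 : Real.cosh (μ * u) ≤ Real.cosh (μ * √(u ^ 2 + τ)) := by
    rw [Real.cosh_le_cosh, abs_mul, abs_mul]
    apply mul_le_mul_of_nonneg_left _ (abs_nonneg _)
    rw [abs_of_pos hu, abs_of_nonneg (Real.sqrt_nonneg _)]
    apply Real.le_sqrt_of_sq_le
    linarith
  have h3 : 0 ≤ (√(2 * Real.pi))⁻¹ * (2 * (Real.exp (-τ / 2) *
      Real.exp (-(u ^ 2 + μ ^ 2) / 2))) := by positivity
  nlinarith [mul_le_mul_of_nonneg_left h2 h3]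

/-- The one-dimensional step: moving the squared height by `τ`. -/
theorem step_one {τ : ℝ} (hτ : 0 < τ) (Γ : ℝ → ℝ≥0∞) (hΓ : Measurable Γ)
    (heven : ∀ h, Γ (-h) = Γ h) (μ : ℝ) :
    ENNReal.ofReal (Real.exp (-τ / 2)) *
      ∫⁻ x, Γ (√((μ + x) ^ 2 + τ)) * ENNReal.ofReal (|μ + x| / √((μ + x) ^ 2 + τ)) ∂gam
      ≤ ∫⁻ x, Γ (μ + x) ∂gam := by
  have hcont : Continuous fun h : ℝ => √(h ^ 2 + τ) := by fun_prop
  have hmf : Measurable fun h : ℝ => Γ (√(h ^ 2 + τ)) * ENNReal.ofReal (|h| / √(h ^ 2 + τ)) := by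
    apply (hΓ.comp hcont.measurable).mul
    apply ENNReal.measurable_ofReal.comp
    exact (continuous_abs.measurable).div hcont.measurable
  have h1 := shift (fun h => Γ (√(h ^ 2 + τ)) * ENNReal.ofReal (|h| / √(h ^ 2 + τ))) hmf
    (fun h => by simp) μ
  rw [h1, shift Γ hΓ heven μ]
  have hmk : Measurable fun h => ENNReal.ofReal (kk μ h) :=
    ENNReal.measurable_ofReal.comp (meas_kk μ)
  have hmp : Measurable fun h : ℝ => ENNReal.ofReal (kk μ h) *
      (Γ (√(h ^ 2 + τ)) * ENNReal.ofReal (|h| / √(h ^ 2 + τ))) := hmk.mul hmf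
  rw [← lintegral_const_mul _ hmp]
  calc ∫⁻ h in Ioi (0 : ℝ), ENNReal.ofReal (Real.exp (-τ / 2)) * (ENNReal.ofReal (kk μ h) *
        (Γ (√(h ^ 2 + τ)) * ENNReal.ofReal (|h| / √(h ^ 2 + τ))))
      ≤ ∫⁻ h in Ioi (0 : ℝ), ENNReal.ofReal |h / √(h ^ 2 + τ)| *
          (ENNReal.ofReal (kk μ (√(h ^ 2 + τ))) * Γ (√(h ^ 2 + τ))) := by
        apply setLIntegral_mono'  measurableSet_Ioi
        intro h hh
        have hh' : (0 : ℝ) < h := hh
        have h2 : ENNReal.ofReal (Real.exp (-τ / 2)) * ENNReal.ofReal (kk μ h) ≤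
            ENNReal.ofReal (kk μ (√(h ^ 2 + τ))) := by
          rw [← ENNReal.ofReal_mul (Real.exp_pos _).le]
          exact ENNReal.ofReal_le_ofReal (kk_step hτ μ h hh')
        have h3 : |h / √(h ^ 2 + τ)| = |h| / √(h ^ 2 + τ) := by
          rw [abs_div, abs_of_nonneg (Real.sqrt_nonneg _)]
        rw [h3]
        calc ENNReal.ofReal (Real.exp (-τ / 2)) * (ENNReal.ofReal (kk μ h) *
              (Γ (√(h ^ 2 + τ)) * ENNReal.ofReal (|h| / √(h ^ 2 + τ))))
            = (ENNReal.ofReal (Real.exp (-τ / 2)) * ENNReal.ofReal (kk μ h)) *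
              (Γ (√(h ^ 2 + τ)) * ENNReal.ofReal (|h| / √(h ^ 2 + τ))) := by ring
          _ ≤ ENNReal.ofReal (kk μ (√(h ^ 2 + τ))) *
              (Γ (√(h ^ 2 + τ)) * ENNReal.ofReal (|h| / √(h ^ 2 + τ))) := by gcongr
          _ = _ := by ring
    _ = ∫⁻ h in (fun u : ℝ => √(u ^ 2 + τ)) '' Ioi 0, ENNReal.ofReal (kk μ h) * Γ h := by
        rw [lintegral_image_eq_lintegral_abs_deriv_mul measurableSet_Ioi
          (fun u _ => (deriv_step hτ u).hasDerivWithinAt)]
        intro u hu v hv huv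
        have hu' : (0 : ℝ) < u := hu
        have hv' : (0 : ℝ) < v := hv
        have h4 : √(u ^ 2 + τ) = √(v ^ 2 + τ) := huv
        have h5 : u ^ 2 + τ = v ^ 2 + τ := by
          have := congrArg (fun x => x ^ 2) h4
          simpa [Real.sq_sqrt (show 0 ≤ u ^ 2 + τ by positivity),
            Real.sq_sqrt (show 0 ≤ v ^ 2 + τ by positivity)] using this
        have h6 : u ^ 2 = v ^ 2 := by linarith
        exact (pow_left_inj₀ hu'.le hv'.le two_ne_zero).mp h6
    _ ≤ _ := by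
        rw [image_step hτ]
        apply lintegral_mono_set
        intro x hx
        have hx' : √τ < x := hx
        have := Real.sqrt_nonneg τ
        exact lt_of_le_of_lt this hx'

theorem image_diff {a : ℝ} (ha : 0 < a) : (fun h : ℝ => h - a / h) '' Ioi 0 = univ := by
  ext v
  simp only [mem_image, mem_Ioi, mem_univ, iff_true]
  have h1 : |v| < √(v ^ 2 + 4 * a) := by
    rw [← Real.sqrt_sq_eq_abs]
    exact Real.sqrt_lt_sqrt (sq_nonneg _) (by linarith)
  have h2 := neg_abs_le v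
  have h3 := Real.sq_sqrt (show 0 ≤ v ^ 2 + 4 * a by positivity)
  have hpos : 0 < (v + √(v ^ 2 + 4 * a)) / 2 := by linarith
  refine ⟨(v + √(v ^ 2 + 4 * a)) / 2, hpos, ?_⟩
  have h4 : a / ((v + √(v ^ 2 + 4 * a)) / 2) = (√(v ^ 2 + 4 * a) - v) / 2 := by
    rw [div_eq_iff hpos.ne']
    nlinarith
  rw [h4]
  ring

theorem image_inv {a : ℝ} (ha : 0 < a) : (fun h : ℝ => a / h) '' Ioi 0 = Ioi 0 := by
  ext v
  simp only [mem_image, mem_Ioi]
  constructor
  · rintro ⟨u, hu, rfl⟩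
    positivity
  · intro hv
    exact ⟨a / v, by positivity, by field_simp⟩

theorem gauss_total : ∫⁻ v : ℝ, ENNReal.ofReal (Real.exp (-(v ^ 2) / 2)) =
    ENNReal.ofReal (√(2 * Real.pi)) := by
  have h1 : ∀ v : ℝ, Real.exp (-(v ^ 2) / 2) = Real.exp (-(1 / 2) * v ^ 2) := by
    intro v; congr 1; ring
  simp only [h1]
  rw [← ofReal_integral_eq_lintegral_ofReal (integrable_exp_neg_mul_sq (by norm_num))
    (Filter.Eventually.of_forall fun v => (Real.exp_pos _).le), integral_gaussian]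
  congr 2
  ring

theorem laplace_J {a : ℝ} (ha : 0 < a) :
    2 * ∫⁻ h in Ioi (0 : ℝ), ENNReal.ofReal (Real.exp (-((h - a / h) ^ 2) / 2)) =
      ENNReal.ofReal (√(2 * Real.pi)) := by
  have hd1 : ∀ h ∈ Ioi (0 : ℝ), HasDerivWithinAt (fun h : ℝ => a / h) (-a / h ^ 2) (Ioi 0) h := by
    intro h hh
    have hh' : (0 : ℝ) < h := hh
    have := ((hasDerivAt_const h a).div (hasDerivAt_id h) hh'.ne').hasDerivWithinAt
      (s := Ioi (0 : ℝ))
    refine this.congr_deriv ?_
    simp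
  have hd2 : ∀ h ∈ Ioi (0 : ℝ), HasDerivWithinAt (fun h : ℝ => h - a / h) (1 + a / h ^ 2)
      (Ioi 0) h := by
    intro h hh
    have := (hasDerivWithinAt_id h (Ioi (0 : ℝ))).sub (hd1 h hh)
    refine this.congr_deriv ?_
    ring
  have hi1 : InjOn (fun h : ℝ => a / h) (Ioi 0) := by
    intro u hu v hv huv
    have hu' : (0 : ℝ) < u := hu
    have hv' : (0 : ℝ) < v := hv
    have h4 : a / u = a / v := huv
    rw [div_eq_div_iff hu'.ne' hv'.ne'] at h4
    exact (mul_left_cancel₀ ha.ne' h4).symm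
  have hi2 : InjOn (fun h : ℝ => h - a / h) (Ioi 0) := by
    intro u hu v hv huv
    have hu' : (0 : ℝ) < u := hu
    have hv' : (0 : ℝ) < v := hv
    have h4 : u - a / u = v - a / v := huv
    have h5 : (u - v) * (1 + a / (u * v)) = 0 := by
      have : a / u - a / v = -(a / (u * v)) * (u - v) := by
        field_simp
        ring
      linear_combination h4 + this
    have h6 : (0 : ℝ) < 1 + a / (u * v) := by positivity
    rcases mul_eq_zero.mp h5 with h | h
    · linarith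
    · linarith
  have hm : Measurable fun h : ℝ => ENNReal.ofReal (Real.exp (-((h - a / h) ^ 2) / 2)) := by
    fun_prop
  have hJ1 : ∫⁻ h in Ioi (0 : ℝ), ENNReal.ofReal (Real.exp (-((h - a / h) ^ 2) / 2)) =
      ∫⁻ h in Ioi (0 : ℝ), ENNReal.ofReal (a / h ^ 2) *
        ENNReal.ofReal (Real.exp (-((h - a / h) ^ 2) / 2)) := by
    have h7 := lintegral_image_eq_lintegral_abs_deriv_mul measurableSet_Ioi hd1 hi1
      (fun h => ENNReal.ofReal (Real.exp (-((h - a / h) ^ 2) / 2)))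
    rw [image_inv ha] at h7
    rw [h7]
    apply setLIntegral_congr_fun measurableSet_Ioi
    intro h hh
    have hh' : (0 : ℝ) < h := hh
    simp only
    have e1 : |-a / h ^ 2| = a / h ^ 2 := by
      rw [neg_div, abs_neg, abs_of_pos (by positivity)]
    have e2 : a / (a / h) = h := by field_simp
    have e3 : (a / h - h) ^ 2 = (h - a / h) ^ 2 := by ring
    rw [e1, e2, e3]
  have hJ2 : ∫⁻ h in Ioi (0 : ℝ), ENNReal.ofReal (1 + a / h ^ 2) *
        ENNReal.ofReal (Real.exp (-((h - a / h) ^ 2) / 2)) =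
      ENNReal.ofReal (√(2 * Real.pi)) := by
    have h7 := lintegral_image_eq_lintegral_abs_deriv_mul measurableSet_Ioi hd2 hi2
      (fun v => ENNReal.ofReal (Real.exp (-(v ^ 2) / 2)))
    rw [image_diff ha, Measure.restrict_univ, gauss_total] at h7
    rw [h7]
    apply setLIntegral_congr_fun measurableSet_Ioi
    intro h hh
    have hh' : (0 : ℝ) < h := hh
    simp only
    rw [abs_of_pos (by positivity)]
  rw [← hJ2, two_mul]
  nth_rewrite 2 [hJ1]
  rw [← lintegral_add_left hm]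
  apply setLIntegral_congr_fun measurableSet_Ioi
  intro h hh
  have hh' : (0 : ℝ) < h := hh
  simp only
  rw [ENNReal.ofReal_add zero_le_one (by positivity), ENNReal.ofReal_one]
  ring

/-- The function `exp (-c / h ^ 2)`, with the value `0` at `0`. -/
noncomputable def fc (c h : ℝ) : ℝ := if h = 0 then 0 else Real.exp (-c / h ^ 2)

theorem fc_nonneg (c h : ℝ) : 0 ≤ fc c h := by
  unfold fc; split_ifs
  · exact le_rfl
  · exact (Real.exp_pos _).le

theorem meas_fc (c : ℝ) : Measurable (fc c) := by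
  unfold fc
  apply Measurable.ite (measurableSet_singleton 0) measurable_const
  fun_prop

theorem laplace_zero {a : ℝ} (ha : 0 < a) :
    ∫⁻ h in Ioi (0 : ℝ), ENNReal.ofReal (kk 0 h) * ENNReal.ofReal (fc (a ^ 2 / 2) h) =
      ENNReal.ofReal (Real.exp (-a)) := by
  have h1 : ∀ h ∈ Ioi (0 : ℝ), ENNReal.ofReal (kk 0 h) * ENNReal.ofReal (fc (a ^ 2 / 2) h) =
      ENNReal.ofReal ((√(2 * Real.pi))⁻¹ * Real.exp (-a)) * (2 *
        ENNReal.ofReal (Real.exp (-((h - a / h) ^ 2) / 2))) := by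
    intro h hh
    have hh' : (0 : ℝ) < h := hh
    rw [← ENNReal.ofReal_mul (kk_nonneg _ _)]
    have h2 : (2 : ℝ≥0∞) = ENNReal.ofReal 2 := by simp
    rw [h2, ← ENNReal.ofReal_mul (by norm_num), ← ENNReal.ofReal_mul (by positivity)]
    congr 1
    unfold kk fc
    rw [if_neg hh'.ne']
    simp only [zero_mul, Real.cosh_zero, mul_one]
    have h3 : Real.exp (-(h ^ 2 + 0 ^ 2) / 2) * Real.exp (-(a ^ 2 / 2) / h ^ 2) =
        Real.exp (-a) * Real.exp (-((h - a / h) ^ 2) / 2) := by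
      rw [← Real.exp_add, ← Real.exp_add]
      congr 1
      field_simp
      ring
    linear_combination 2 * (√(2 * Real.pi))⁻¹ * h3
  rw [setLIntegral_congr_fun measurableSet_Ioi h1]
  have hm : Measurable fun h : ℝ => ENNReal.ofReal (Real.exp (-((h - a / h) ^ 2) / 2)) := by
    fun_prop
  rw [lintegral_const_mul _ (hm.const_mul 2), lintegral_const_mul _ hm, laplace_J ha,
    ← ENNReal.ofReal_mul (by positivity)]
  congr 1
  have : √(2 * Real.pi) ≠ 0 := by positivity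
  field_simp

theorem assoc {c : ℝ} (hc : 0 < c) (μ : ℝ) :
    ∫⁻ h in Ioi (0 : ℝ), ENNReal.ofReal (kk 0 h) * ENNReal.ofReal (fc c h) ≤
      ∫⁻ h in Ioi (0 : ℝ), ENNReal.ofReal (kk μ h) * ENNReal.ofReal (fc c h) := by
  rcases eq_or_ne μ 0 with rfl | hμ
  · exact le_rfl
  -- the threshold
  obtain ⟨y, hy⟩ : ∃ y : ℝ, Real.cosh y = Real.exp (μ ^ 2 / 2) := by
    have h1 : ∃ a : ℝ, Real.cosh a ≤ Real.exp (μ ^ 2 / 2) :=
      ⟨0, by rw [Real.cosh_zero]; exact Real.one_le_exp (by positivity)⟩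
    have h2 : ∃ b : ℝ, Real.exp (μ ^ 2 / 2) ≤ Real.cosh b := by
      refine ⟨Real.log (2 * Real.exp (μ ^ 2 / 2)), ?_⟩
      rw [Real.cosh_eq, Real.exp_log (by positivity)]
      have := Real.exp_pos (-Real.log (2 * Real.exp (μ ^ 2 / 2)))
      linarith
    exact mem_range_of_exists_le_of_exists_ge Real.continuous_cosh h1 h2
  have hy0 : y ≠ 0 := by
    rintro rfl
    rw [Real.cosh_zero] at hy
    have : (1 : ℝ) < Real.exp (μ ^ 2 / 2) := Real.one_lt_exp_iff.mpr (by positivity)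
    linarith
  have hμ' : 0 < |μ| := abs_pos.mpr hμ
  set x0 : ℝ := |y| / |μ| with hx0
  have hx0pos : 0 < x0 := div_pos (abs_pos.mpr hy0) hμ'
  have hkk : ∀ h, kk μ h = kk 0 h * (Real.exp (-μ ^ 2 / 2) * Real.cosh (μ * h)) := by
    intro h
    unfold kk
    simp only [zero_mul, Real.cosh_zero, mul_one]
    have : Real.exp (-(h ^ 2 + μ ^ 2) / 2) =
        Real.exp (-(h ^ 2 + 0 ^ 2) / 2) * Real.exp (-μ ^ 2 / 2) := by
      rw [← Real.exp_add]; congr 1; ring
    rw [this]; ring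
  have hE : Real.exp (-μ ^ 2 / 2) * Real.exp (μ ^ 2 / 2) = 1 := by
    rw [← Real.exp_add, ← Real.exp_zero]; congr 1; ring
  have hpt : ∀ h ∈ Ioi (0 : ℝ), fc c h * kk 0 h + fc c x0 * kk μ h ≤
      fc c h * kk μ h + fc c x0 * kk 0 h := by
    intro h hh
    have hh' : (0 : ℝ) < h := hh
    have hmono : ∀ s t : ℝ, 0 < s → s ≤ t → fc c s ≤ fc c t := by
      intro s t hs hst
      have ht : 0 < t := lt_of_lt_of_le hs hst
      unfold fc
      rw [if_neg hs.ne', if_neg ht.ne']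
      apply Real.exp_le_exp.mpr
      rw [neg_div, neg_div, neg_le_neg_iff]
      exact div_le_div_of_nonneg_left hc.le (by positivity) (by nlinarith)
    have h0 := kk_nonneg 0 h
    rcases le_total x0 h with hx | hx
    · have h1 := hmono x0 h hx0pos hx
      have h2 : kk 0 h ≤ kk μ h := by
        rw [hkk]
        have : Real.exp (μ ^ 2 / 2) ≤ Real.cosh (μ * h) := by
          rw [← hy, Real.cosh_le_cosh, abs_mul, abs_of_pos hh']
          rw [hx0, div_le_iff₀ hμ'] at hx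
          linarith
        have h3 : 1 ≤ Real.exp (-μ ^ 2 / 2) * Real.cosh (μ * h) := by
          rw [← hE]
          exact mul_le_mul_of_nonneg_left this (Real.exp_pos _).le
        nlinarith
      nlinarith [mul_nonneg (sub_nonneg.mpr h1) (sub_nonneg.mpr h2)]
    · have h1 := hmono h x0 hh' hx
      have h2 : kk μ h ≤ kk 0 h := by
        rw [hkk]
        have : Real.cosh (μ * h) ≤ Real.exp (μ ^ 2 / 2) := by
          rw [← hy, Real.cosh_le_cosh, abs_mul, abs_of_pos hh']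
          rw [hx0, le_div_iff₀ hμ'] at hx
          linarith
        have h3 : Real.exp (-μ ^ 2 / 2) * Real.cosh (μ * h) ≤ 1 := by
          rw [← hE]
          exact mul_le_mul_of_nonneg_left this (Real.exp_pos _).le
        nlinarith
      nlinarith [mul_nonneg (sub_nonneg.mpr h1) (sub_nonneg.mpr h2)]
  have hmk : ∀ μ, Measurable fun h => ENNReal.ofReal (kk μ h) :=
    fun μ => ENNReal.measurable_ofReal.comp (meas_kk μ)
  have hmf : Measurable fun h => ENNReal.ofReal (fc c h) :=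
    ENNReal.measurable_ofReal.comp (meas_fc c)
  have hsum : ∫⁻ h in Ioi (0 : ℝ), (ENNReal.ofReal (kk 0 h) * ENNReal.ofReal (fc c h) +
        ENNReal.ofReal (fc c x0) * ENNReal.ofReal (kk μ h)) ≤
      ∫⁻ h in Ioi (0 : ℝ), (ENNReal.ofReal (kk μ h) * ENNReal.ofReal (fc c h) +
        ENNReal.ofReal (fc c x0) * ENNReal.ofReal (kk 0 h)) := by
    apply setLIntegral_mono' measurableSet_Ioi
    intro h hh
    have h0 := kk_nonneg 0 h
    have h1 := kk_nonneg μ h
    have h2 := fc_nonneg c h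
    have h3 := fc_nonneg c x0
    rw [← ENNReal.ofReal_mul h0, ← ENNReal.ofReal_mul h3, ← ENNReal.ofReal_mul h1,
      ← ENNReal.ofReal_mul h3, ← ENNReal.ofReal_add (by positivity) (by positivity),
      ← ENNReal.ofReal_add (by positivity) (by positivity)]
    apply ENNReal.ofReal_le_ofReal
    have := hpt h hh
    linarith
  rw [lintegral_add_right _ ((hmk μ).const_mul _), lintegral_add_right _ ((hmk 0).const_mul _),
    lintegral_const_mul _ (hmk μ), lintegral_const_mul _ (hmk 0), kk_mass, kk_mass] at hsum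
  exact (ENNReal.add_le_add_iff_right (by finiteness)).mp hsum

/-- Anderson's inequality together with the Laplace transform of the inverse square. -/
theorem anderson {a : ℝ} (ha : 0 < a) (μ : ℝ) :
    ENNReal.ofReal (Real.exp (-a)) ≤ ∫⁻ x, ENNReal.ofReal (fc (a ^ 2 / 2) (μ + x)) ∂gam := by
  rw [shift (fun h => ENNReal.ofReal (fc (a ^ 2 / 2) h))
    (ENNReal.measurable_ofReal.comp (meas_fc _)) (fun h => by simp [fc]) μ,
    ← laplace_zero ha]
  exact assoc (by positivity) μ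

end Pool.Agent.R979.SV
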