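import Pool.Agent.R979.SV.OneD

/-!
# Rotations of Gaussian rows
-/

set_option autoImplicit false

namespace Pool.Agent.R979.SV

open MeasureTheory ProbabilityTheory Set
open scoped ENNReal

variable {ι : Type} [Fintype ι] [DecidableEq ι]

/-- The law of a Gaussian row. -/
noncomputable abbrev mu1 (ι : Type) [Fintype ι] : Measure (ι → ℝ) := Measure.pi (fun _ : ι => gam)

/-- The law of a Gaussian matrix. -/
noncomputable abbrev mu2 (ι : Type) [Fintype ι] : Measure (ι → ι → ℝ) :=
  Measure.pi (fun _ : ι => mu1 ι)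

omit [DecidableEq ι] in
theorem meas_comb (b : OrthonormalBasis ι ℝ (EuclideanSpace ℝ ι)) :
    Measurable fun x : ι → ℝ => (WithLp.ofLp (∑ i, x i • b i) : ι → ℝ) := by
  have : Continuous fun x : ι → ℝ => (WithLp.ofLp (∑ i, x i • b i) : ι → ℝ) := by
    fun_prop
  exact this.measurable

theorem map_comb (b : OrthonormalBasis ι ℝ (EuclideanSpace ℝ ι)) :
    (mu1 ι).map (fun x : ι → ℝ => (WithLp.ofLp (∑ i, x i • b i) : ι → ℝ)) = mu1 ι := by
  have h1 := stdGaussian_eq_map_pi_orthonormalBasis b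
  rw [← map_pi_eq_stdGaussian] at h1
  have h2 := congrArg (Measure.map (WithLp.ofLp : EuclideanSpace ℝ ι → ι → ℝ)) h1
  rw [Measure.map_map (by fun_prop) (by fun_prop), Measure.map_map (by fun_prop) (by fun_prop)]
    at h2
  have h3 : (WithLp.ofLp : EuclideanSpace ℝ ι → ι → ℝ) ∘ (WithLp.toLp 2) = id := rfl
  rw [h3, Measure.map_id] at h2
  exact h2.symm

theorem rot (b : OrthonormalBasis ι ℝ (EuclideanSpace ℝ ι)) (F : (ι → ℝ) → ℝ≥0∞)
    (hF : Measurable F) :
    ∫⁻ y, F y ∂(mu1 ι) = ∫⁻ x, F (WithLp.ofLp (∑ i, x i • b i)) ∂(mu1 ι) := by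
  conv_lhs => rw [← map_comb b]
  rw [lintegral_map hF (meas_comb b)]

/-- An orthonormal basis containing a given unit vector at a given position. -/
theorem exists_basis (k : ι) (ν : ι → ℝ) (hν : ∑ i, ν i ^ 2 = 1) :
    ∃ b : OrthonormalBasis ι ℝ (EuclideanSpace ℝ ι), (b k : ι → ℝ) = ν := by
  have hcard : Module.finrank ℝ (EuclideanSpace ℝ ι) = Fintype.card ι := finrank_euclideanSpace
  have hv : Orthonormal ℝ (({k} : Set ι).domRestrict (fun _ : ι => (WithLp.toLp 2 ν : EuclideanSpace ℝ ι))) := by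
    rw [orthonormal_iff_ite]
    intro i j
    have : i = j := Subsingleton.elim i j
    subst this
    simp only [if_true]
    rw [real_inner_self_eq_norm_sq, EuclideanSpace.real_norm_sq_eq]
    exact hν
  obtain ⟨b, hb⟩ := hv.exists_orthonormalBasis_extension_of_card_eq hcard
  exact ⟨b, by rw [hb k rfl]⟩

theorem row_le (k : ι) (ν : ι → ℝ) (hν : ∑ i, ν i ^ 2 = 1) (F F' : (ι → ℝ) → ℝ≥0∞)
    (hF : Measurable F) (hF' : Measurable F')
    (h : ∀ w : ι → ℝ, (∑ i, w i * ν i = 0) →
      ∫⁻ s, F (w + s • ν) ∂gam ≤ ∫⁻ s, F' (w + s • ν) ∂gam) :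
    ∫⁻ y, F y ∂(mu1 ι) ≤ ∫⁻ y, F' y ∂(mu1 ι) := by
  obtain ⟨b, hb⟩ := exists_basis k ν hν
  rw [rot b F hF, rot b F' hF']
  apply lintegral_le_of_lmarginal_le {k} (hF.comp (meas_comb b)) (hF'.comp (meas_comb b))
  rw [lmarginal_singleton, lmarginal_singleton]
  intro x
  simp only
  set w : ι → ℝ := WithLp.ofLp (∑ i ∈ Finset.univ.erase k, x i • b i) with hw
  have key : ∀ s : ℝ, (WithLp.ofLp (∑ i, (Function.update x k s) i • b i) : ι → ℝ) = w + s • ν := by
    intro s
    rw [← Finset.add_sum_erase _ _ (Finset.mem_univ k)]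
    rw [Function.update_self]
    have : ∑ i ∈ Finset.univ.erase k, (Function.update x k s) i • b i =
        ∑ i ∈ Finset.univ.erase k, x i • b i := by
      apply Finset.sum_congr rfl
      intro i hi
      rw [Function.update_of_ne (Finset.ne_of_mem_erase hi)]
    rw [this, WithLp.ofLp_add, WithLp.ofLp_smul, ← hw, add_comm, hb]
  have hort : ∑ i, w i * ν i = 0 := by
    have h1 : inner ℝ (b k) (∑ i ∈ Finset.univ.erase k, x i • b i) = 0 := by
      rw [inner_sum]
      apply Finset.sum_eq_zero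
      intro i hi
      rw [inner_smul_right, b.inner_eq_ite, if_neg (Finset.ne_of_mem_erase hi).symm, mul_zero]
    rw [PiLp.inner_apply] at h1
    rw [← h1]
    apply Finset.sum_congr rfl
    intro i _
    rw [← hb, hw]
    rfl
  have h2 := h w hort
  simp only [Function.comp_apply, key]
  exact h2

omit [DecidableEq ι] in
theorem transp_map : (mu2 ι).map (fun G i j => G j i) = mu2 ι := by
  have h1 : mu2 ι = (Measure.pi fun _ : ι × ι => gam).map (MeasurableEquiv.curry ι ι ℝ) := by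
    have := Measure.infinitePi_map_curry (fun (_ : ι) (_ : ι) => gam)
    simp only [Measure.infinitePi_eq_pi] at this
    exact this.symm
  have h2 := (measurePreserving_piCongrLeft (fun _ : ι × ι => gam) (Equiv.prodComm ι ι)).map_eq
  have h3 : (fun (G : ι → ι → ℝ) i j => G j i) ∘ (MeasurableEquiv.curry ι ι ℝ) =
      (MeasurableEquiv.curry ι ι ℝ) ∘
        (MeasurableEquiv.piCongrLeft (fun _ : ι × ι => ℝ) (Equiv.prodComm ι ι)) := by
    funext x i j
    simp only [Function.comp_apply]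
    have h4 : (MeasurableEquiv.piCongrLeft (fun _ : ι × ι => ℝ) (Equiv.prodComm ι ι)) x
        ((Equiv.prodComm ι ι) (j, i)) = x (j, i) := by
      rw [MeasurableEquiv.coe_piCongrLeft, Equiv.piCongrLeft_apply_apply]
    exact h4.symm
  have hmt : Measurable (fun (G : ι → ι → ℝ) (i j : ι) => G j i) := by fun_prop
  rw [h1, Measure.map_map hmt (MeasurableEquiv.measurable _), h3,
    ← Measure.map_map (MeasurableEquiv.measurable _) (MeasurableEquiv.measurable _)]
  exact congrArg (Measure.map (MeasurableEquiv.curry ι ι ℝ)) h2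

omit [DecidableEq ι] in
theorem transp (F : (ι → ι → ℝ) → ℝ≥0∞) (hF : Measurable F) :
    ∫⁻ G, F G ∂(mu2 ι) = ∫⁻ G, F (fun i j => G j i) ∂(mu2 ι) := by
  have hmt : Measurable (fun (G : ι → ι → ℝ) (i j : ι) => G j i) := by fun_prop
  conv_lhs => rw [← transp_map]
  rw [lintegral_map hF hmt]

theorem rot2 (b : OrthonormalBasis ι ℝ (EuclideanSpace ℝ ι)) (F : (ι → ι → ℝ) → ℝ≥0∞)
    (hF : Measurable F) :
    ∫⁻ G, F G ∂(mu2 ι) = ∫⁻ X, F (fun i j => ∑ p, X p j * (b p) i) ∂(mu2 ι) := by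
  have hmt : Measurable (fun (G : ι → ι → ℝ) (i j : ι) => G j i) := by fun_prop
  have h1 : (mu2 ι).map (fun (X : ι → ι → ℝ) i => (WithLp.ofLp (∑ p, X i p • b p) : ι → ℝ)) =
      mu2 ι := by
    have hsf : ∀ i : ι, SigmaFinite ((mu1 ι).map
        ((fun (_ : ι) (x : ι → ℝ) => (WithLp.ofLp (∑ p, x p • b p) : ι → ℝ)) i)) := by
      intro i
      rw [map_comb b]
      infer_instance
    have := Measure.pi_map_pi (μ := fun _ : ι => mu1 ι)
      (f := fun (_ : ι) (x : ι → ℝ) => (WithLp.ofLp (∑ p, x p • b p) : ι → ℝ))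
      (fun _ => (meas_comb b).aemeasurable)
    rw [this]
    simp only [map_comb b]
  have hm2 : Measurable (fun (X : ι → ι → ℝ) i => (WithLp.ofLp (∑ p, X i p • b p) : ι → ℝ)) := by
    apply measurable_pi_lambda
    intro i
    exact (meas_comb b).comp (measurable_pi_apply i)
  rw [transp F hF]
  conv_lhs => rw [← h1]
  have hg : Measurable fun G : ι → ι → ℝ => F (fun i j => G j i) := hF.comp hmt
  have hg2 : Measurable fun X : ι → ι → ℝ =>
    F (fun i j => (fun (X : ι → ι → ℝ) i => (WithLp.ofLp (∑ p, X i p • b p) : ι → ℝ)) X j i) :=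
    hg.comp hm2
  rw [lintegral_map hg hm2, transp _ hg2]
  apply lintegral_congr
  intro X
  congr 1
  funext i j
  simp

end Pool.Agent.R979.SV
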