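import Pool.Agent.R979.SV.Chain

/-!
# The Gaussian representation of the determinant ratio
-/

set_option autoImplicit false

namespace Pool.Agent.R979.SV

open MeasureTheory ProbabilityTheory Set Matrix
open scoped ENNReal

variable {ι : Type} [Fintype ι] [DecidableEq ι]

theorem gauss_sq {c : ℝ} (hc : 0 < c) :
    ∫ x, Real.exp (-c * x ^ 2) ∂gam = √(1 / (1 + 2 * c)) := by
  rw [integral_gaussianReal_eq_integral_smul one_ne_zero]
  have h1 : ∀ x : ℝ, gaussianPDFReal 0 1 x • Real.exp (-c * x ^ 2) =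
      (√(2 * Real.pi))⁻¹ * Real.exp (-(c + 1 / 2) * x ^ 2) := by
    intro x
    unfold gaussianPDFReal
    simp only [NNReal.coe_one, mul_one, sub_zero, smul_eq_mul]
    rw [mul_assoc, ← Real.exp_add]
    congr 2
    ring
  simp only [h1]
  rw [integral_const_mul, integral_gaussian, ← Real.sqrt_inv, ← Real.sqrt_mul (by positivity)]
  congr 1
  have := Real.pi_pos
  field_simp
  ring

theorem integrable_gauss_sq {c : ℝ} (hc : 0 < c) :
    Integrable (fun x : ℝ => Real.exp (-c * x ^ 2)) gam := by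
  refine Integrable.of_bound (by fun_prop) 1 (Filter.Eventually.of_forall fun x => ?_)
  rw [Real.norm_eq_abs, abs_of_pos (Real.exp_pos _)]
  apply Real.exp_le_one_iff.mpr
  nlinarith [sq_nonneg x]

theorem det_add_smul_one {N : Matrix ι ι ℝ} (hN : N.IsHermitian) (τ : ℝ) :
    (N + τ • (1 : Matrix ι ι ℝ)).det = ∏ i, (hN.eigenvalues i + τ) := by
  have h1 := Matrix.eval_charpoly N (-τ)
  rw [hN.charpoly_eq, Polynomial.eval_prod] at h1
  have h2 : N + τ • (1 : Matrix ι ι ℝ) = -(Matrix.scalar ι (-τ) - N) := by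
    ext i j
    simp only [Matrix.add_apply, Matrix.smul_apply, Matrix.neg_apply, Matrix.sub_apply,
      Matrix.scalar_apply, Matrix.one_apply, Matrix.diagonal_apply, smul_eq_mul]
    split_ifs <;> ring
  rw [h2, Matrix.det_neg, ← h1, ← Finset.card_univ, ← Finset.prod_const, ← Finset.prod_mul_distrib]
  apply Finset.prod_congr rfl
  intro i _
  simp

theorem Zlem {N : Matrix ι ι ℝ} (hN : N.PosDef) {τ : ℝ} (hτ : 0 < τ) :
    ∫⁻ z, ENNReal.ofReal (Real.exp (-(τ / 2) * (z ⬝ᵥ (N⁻¹ *ᵥ z)))) ∂(mu1 ι) =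
      ENNReal.ofReal (√(N.det / (N + τ • (1 : Matrix ι ι ℝ)).det)) := by
  set b := hN.1.eigenvectorBasis with hb
  set l := hN.1.eigenvalues with hl
  have hlpos : ∀ i, 0 < l i := hN.eigenvalues_pos
  have hunit : IsUnit N.det := (Matrix.isUnit_iff_isUnit_det N).mp hN.isUnit
  have hinv : ∀ i, N⁻¹ *ᵥ (b i : ι → ℝ) = (l i)⁻¹ • (b i : ι → ℝ) := by
    intro i
    have h1 := hN.1.mulVec_eigenvectorBasis i
    have h2 : N⁻¹ *ᵥ (N *ᵥ (b i : ι → ℝ)) = (b i : ι → ℝ) := by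
      rw [Matrix.mulVec_mulVec, Matrix.nonsing_inv_mul _ hunit, Matrix.one_mulVec]
    rw [h1, Matrix.mulVec_smul] at h2
    rw [← h2, smul_smul, inv_mul_cancel₀ (hlpos i).ne', one_smul]
    exact congrArg _ h2
  have hmeas : Measurable fun z : ι → ℝ =>
      ENNReal.ofReal (Real.exp (-(τ / 2) * (z ⬝ᵥ (N⁻¹ *ᵥ z)))) := by
    apply ENNReal.measurable_ofReal.comp
    apply Continuous.measurable
    apply Real.continuous_exp.comp
    apply continuous_const.mul
    exact continuous_id.dotProduct (continuous_const.matrix_mulVec continuous_id)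
  rw [rot b _ hmeas]
  have hq : ∀ x : ι → ℝ, (WithLp.ofLp (∑ i, x i • b i) : ι → ℝ) ⬝ᵥ
      (N⁻¹ *ᵥ (WithLp.ofLp (∑ i, x i • b i) : ι → ℝ)) = ∑ i, x i ^ 2 / l i := by
    intro x
    have h1 : (WithLp.ofLp (∑ i, x i • b i) : ι → ℝ) = ∑ i, x i • (b i : ι → ℝ) := by
      rw [WithLp.ofLp_sum]
      rfl
    rw [h1, Matrix.mulVec_sum, sum_dotProduct]
    apply Finset.sum_congr rfl
    intro i _
    rw [dotProduct_sum]
    rw [Finset.sum_eq_single i]
    · rw [Matrix.mulVec_smul, hinv, smul_dotProduct, dotProduct_smul, dotProduct_smul]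
      have : (b i : ι → ℝ) ⬝ᵥ (b i : ι → ℝ) = 1 := by
        have h2 := b.inner_eq_one i
        rw [EuclideanSpace.inner_eq_star_dotProduct] at h2
        simpa using h2
      rw [this]
      simp only [smul_eq_mul]
      field_simp
    · intro j _ hj
      rw [Matrix.mulVec_smul, hinv, smul_dotProduct, dotProduct_smul, dotProduct_smul]
      have : (b i : ι → ℝ) ⬝ᵥ (b j : ι → ℝ) = 0 := by
        have h2 := b.inner_eq_zero hj
        rw [EuclideanSpace.inner_eq_star_dotProduct] at h2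
        simpa using h2
      rw [this]
      simp
    · intro h
      exact absurd (Finset.mem_univ i) h
  have hexp : ∀ x : ι → ℝ, Real.exp (-(τ / 2) * ((WithLp.ofLp (∑ i, x i • b i) : ι → ℝ) ⬝ᵥ
      (N⁻¹ *ᵥ (WithLp.ofLp (∑ i, x i • b i) : ι → ℝ)))) =
      ∏ i, Real.exp (-(τ / (2 * l i)) * x i ^ 2) := by
    intro x
    rw [hq, ← Real.exp_sum]
    congr 1
    rw [Finset.mul_sum]
    apply Finset.sum_congr rfl
    intro i _
    have := (hlpos i).ne'
    field_simp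
  simp only [hexp]
  have hc : ∀ i, 0 < τ / (2 * l i) := fun i => div_pos hτ (mul_pos two_pos (hlpos i))
  rw [← ofReal_integral_eq_lintegral_ofReal
    (Integrable.fintype_prod (fun i => integrable_gauss_sq (hc i)))
    (Filter.Eventually.of_forall fun x => Finset.prod_nonneg fun i _ => (Real.exp_pos _).le),
    integral_fintype_prod_eq_prod (fun i x => Real.exp (-(τ / (2 * l i)) * x ^ 2))]
  congr 1
  simp only [gauss_sq (hc _)]
  rw [← Real.sqrt_prod _ (fun i _ => by have := hc i; positivity)]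
  congr 1
  rw [hN.1.det_eq_prod_eigenvalues, det_add_smul_one hN.1, ← hl]
  simp only [RCLike.ofReal_real_eq_id, id_eq]
  rw [← Finset.prod_div_distrib]
  apply Finset.prod_congr rfl
  intro i _
  have := hlpos i
  field_simp

/-- The Gram matrix, regularised. -/
noncomputable def gre (ε : ℝ) (A : ι → ι → ℝ) : Matrix ι ι ℝ := gr A + ε • (1 : Matrix ι ι ℝ)

theorem gre_posDef {ε : ℝ} (hε : 0 < ε) (A : ι → ι → ℝ) : (gre ε A).PosDef := by
  unfold gre
  have h1 : (gr A).PosSemidef := by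
    have := Matrix.posSemidef_self_mul_conjTranspose (Matrix.of A)
    rwa [Matrix.conjTranspose_eq_transpose_of_trivial] at this
  have h2 : (ε • (1 : Matrix ι ι ℝ)).PosDef := Matrix.PosDef.one.smul hε
  exact h2.posSemidef_add h1

theorem alg_bound {ε : ℝ} (hε : 0 < ε) (A : ι → ι → ℝ) (z ν : ι → ℝ) (hν : ∑ i, ν i ^ 2 = 1)
    {c : ℝ} (hc : c ≠ 0) (hA : (Matrix.of A) *ᵥ ν = c • z) :
    z ⬝ᵥ ((gre ε A)⁻¹ *ᵥ z) ≤ 1 / c ^ 2 := by
  have hP := gre_posDef hε A
  have hunit : IsUnit (gre ε A).det := (Matrix.isUnit_iff_isUnit_det _).mp hP.isUnit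
  set u := (gre ε A)⁻¹ *ᵥ z with hu
  have h1 : (gre ε A) *ᵥ u = z := by
    rw [hu, Matrix.mulVec_mulVec, Matrix.mul_nonsing_inv _ hunit, Matrix.one_mulVec]
  set q := z ⬝ᵥ u with hq
  have h2 : q = ((Matrix.of A)ᵀ *ᵥ u) ⬝ᵥ ((Matrix.of A)ᵀ *ᵥ u) + ε * (u ⬝ᵥ u) := by
    rw [hq]
    conv_lhs => rw [← h1]
    rw [dotProduct_comm]
    unfold gre gr
    rw [Matrix.add_mulVec, dotProduct_add, Matrix.smul_mulVec, Matrix.one_mulVec,
      dotProduct_smul, smul_eq_mul]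
    congr 1
    rw [← Matrix.mulVec_mulVec, Matrix.dotProduct_mulVec, ← Matrix.mulVec_transpose]
  have h3 : (((Matrix.of A)ᵀ *ᵥ u) ⬝ᵥ ν) ^ 2 ≤
      ((Matrix.of A)ᵀ *ᵥ u) ⬝ᵥ ((Matrix.of A)ᵀ *ᵥ u) := by
    have := Finset.sum_mul_sq_le_sq_mul_sq Finset.univ ((Matrix.of A)ᵀ *ᵥ u) ν
    rw [hν, mul_one] at this
    have e : ((Matrix.of A)ᵀ *ᵥ u) ⬝ᵥ ((Matrix.of A)ᵀ *ᵥ u) =
        ∑ i, ((Matrix.of A)ᵀ *ᵥ u) i ^ 2 := by
      unfold dotProduct
      apply Finset.sum_congr rfl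
      intro i _
      ring
    rw [e]
    exact this
  have h4 : ((Matrix.of A)ᵀ *ᵥ u) ⬝ᵥ ν = c * q := by
    rw [Matrix.mulVec_transpose, ← Matrix.dotProduct_mulVec, hA, dotProduct_smul, smul_eq_mul, hq,
      dotProduct_comm]
  have h5 : 0 ≤ u ⬝ᵥ u := Finset.sum_nonneg fun i _ => mul_self_nonneg _
  rw [h4] at h3
  have h6 : c ^ 2 * q ^ 2 ≤ q := by nlinarith [mul_nonneg hε.le h5]
  have hc2 : 0 < c ^ 2 := by positivity
  have hq0 : 0 ≤ q := le_trans (by positivity) h6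
  rw [le_div_iff₀ hc2]
  rcases hq0.eq_or_lt with h7 | h7
  · rw [← h7]; simp
  · by_contra h8
    push Not at h8
    nlinarith [mul_pos h7 (sub_pos.mpr h8)]

theorem meas_q {ε : ℝ} : Measurable fun p : (ι → ι → ℝ) × (ι → ℝ) =>
    p.2 ⬝ᵥ ((gre ε p.1)⁻¹ *ᵥ p.2) := by
  have h1 : ∀ p : (ι → ι → ℝ) × (ι → ℝ), p.2 ⬝ᵥ ((gre ε p.1)⁻¹ *ᵥ p.2) =
      ((gre ε p.1).det)⁻¹ * (p.2 ⬝ᵥ ((gre ε p.1).adjugate *ᵥ p.2)) := by
    intro p
    rw [Matrix.inv_def, Ring.inverse_eq_inv', Matrix.smul_mulVec, dotProduct_smul, smul_eq_mul]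
  simp only [h1]
  have h2 : Continuous fun p : (ι → ι → ℝ) × (ι → ℝ) => gre ε p.1 := by
    unfold gre
    exact (cont_gr.comp continuous_fst).add continuous_const
  apply Measurable.mul
  · exact (h2.matrix_det.measurable).inv
  · exact (continuous_snd.dotProduct (h2.matrix_adjugate.matrix_mulVec continuous_snd)).measurable

end Pool.Agent.R979.SV
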